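import Pool.Agent.ECH.St

set_option autoImplicit false

namespace Pool.Agent.ECH

open SimpleGraph Pool.Agent.CEC

set_option maxRecDepth 100000 in
private theorem Asm_dec : ∀ A1 A2 B1 B2 u v p q : ZMod 2, A1 + B1 = u + p → A2 + B2 = v + q →
    ((u = 0 ∧ v = 1 ∧ p = 0) ∨ (u = 1 ∧ v = 0 ∧ q = 0) ∨ (u = 1 ∧ v = 1 ∧ p = q)) →
    (((B1, B2) = (A1, A2) ∧ (B1 + u, B2 + v) = (A1 + u, A2 + v) ∧ (B1, B2) ≠ (B1 + u, B2 + v)) ∨
      ((B1, B2) = (A1 + u, A2 + v) ∧ (B1 + u, B2 + v) = (A1, A2) ∧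
        (B1, B2) ≠ (B1 + u, B2 + v))) := by
  decide

private theorem Asm_two (t : ZMod 2) : t + t = 0 := by
  have : ∀ t : ZMod 2, t + t = 0 := by decide
  exact this t

private theorem Asm_sum {V : Type} [Fintype V] [DecidableEq V] (hodd : Odd (Fintype.card V))
    (c : V → ZMod 3) (i : ZMod 3) (hc : Odd (Finset.univ.filter fun x => c x = i).card) :
    ∑ y : V, (if c y = i then (0 : ZMod 2) else 1) = 0 := by
  have h1 : ∑ y : V, (if c y = i then (0 : ZMod 2) else 1) +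
      ∑ y : V, (if c y = i then (1 : ZMod 2) else 0) = ∑ y : V, (1 : ZMod 2) := by
    rw [← Finset.sum_add_distrib]
    refine Finset.sum_congr rfl fun y _ => ?_
    by_cases h : c y = i
    · simp [h]
    · simp [h]
  have h2 : ∑ y : V, (1 : ZMod 2) = 1 := by
    rw [Finset.sum_const, Finset.card_univ, nsmul_eq_mul, mul_one]
    exact (ZMod.natCast_eq_one_iff_odd (n := Fintype.card V)).2 hodd
  have h3 : ∑ y : V, (if c y = i then (1 : ZMod 2) else 0) = 1 := by
    rw [Finset.sum_ite, Finset.sum_const_zero, add_zero, Finset.sum_const, nsmul_eq_mul, mul_one]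
    exact (ZMod.natCast_eq_one_iff_odd (n := _)).2 hc
  rw [h2, h3] at h1
  exact add_eq_right.1 h1

private theorem Asm_Q {V : Type} [Fintype V] (Q : V → V → ZMod 2)
    (hQ : EvG Q) (c : V → ZMod 3) (i : ZMod 3) (x : V) :
    ∑ y, Q x y * (if c y = i then (0 : ZMod 2) else 1) = ∑ y, if c y = i then Q x y else 0 := by
  have h1 : ∑ y, Q x y * (if c y = i then (0 : ZMod 2) else 1) +
      ∑ y, (if c y = i then Q x y else 0) = 0 := by
    rw [← Finset.sum_add_distrib]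
    refine Eq.trans ?_ (hQ.deg x)
    refine Finset.sum_congr rfl fun y _ => ?_
    by_cases h : c y = i
    · simp [h]
    · simp [h]
  have h2 := Asm_two (∑ y, if c y = i then Q x y else 0)
  exact add_right_cancel (h1.trans h2.symm)

theorem thm_Asm (hMx : St_Mx) (hQe : St_Qe) (hSm : St_Sm) : St_Asm := by
  intro V _ _ α β a b hR hα hβ hodd c hc hD
  have hQ : EvG (Qf a b) := hQe V α β a b hα hβ hodd
  obtain ⟨z1, hz1⟩ : ∃ z : V → ZMod 2, z = fun y => if c y = 0 then 0 else 1 := ⟨_, rfl⟩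
  obtain ⟨z2, hz2⟩ : ∃ z : V → ZMod 2, z = fun y => if c y = 1 then 0 else 1 := ⟨_, rfl⟩
  have hs1 : ∑ y, z1 y = 0 := by
    rw [hz1]
    exact Asm_sum hodd c 0 (hc 0)
  have hs2 : ∑ y, z2 y = 0 := by
    rw [hz2]
    exact Asm_sum hodd c 1 (hc 1)
  obtain ⟨hP1, hC1⟩ := hSm V z1 hs1
  obtain ⟨hP2, hC2⟩ := hSm V z2 hs2
  refine hMx V α β hR (ZMod 2 × ZMod 2)
    (fun x => ((∑ y, if a y ≤ a x then z1 y else 0) +
        ∑ y, z1 y * ((a y : ZMod 2) + (b y : ZMod 2)),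
      (∑ y, if a y ≤ a x then z2 y else 0) +
        ∑ y, z2 y * ((a y : ZMod 2) + (b y : ZMod 2))))
    (fun x => (∑ y, if b y ≤ b x then z1 y else 0, ∑ y, if b y ≤ b x then z2 y else 0)) ?_
  intro x y z hy hz
  have hA1 := hP1 α a hα y
  have hA2 := hP2 α a hα y
  have hB1 := hP1 β b hβ z
  have hB2 := hP2 β b hβ z
  rw [hy] at hA1 hA2
  rw [hz] at hB1 hB2
  have hX1 := hC1 α β a b hα hβ x
  have hX2 := hC2 α β a b hα hβ x
  have hq1 : ∑ y, Qf a b x y * z1 y = ∑ y, if c y = 0 then Qf a b x y else 0 := by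
    rw [hz1]
    exact Asm_Q _ hQ c 0 x
  have hq2 : ∑ y, Qf a b x y * z2 y = ∑ y, if c y = 1 then Qf a b x y else 0 := by
    rw [hz2]
    exact Asm_Q _ hQ c 1 x
  have hDx : ∑ y, (if c y = c x then Qf a b x y else 0) = 0 := hD x
  have h3 : ∑ y, (if c y = 0 then Qf a b x y else 0) + ∑ y, (if c y = 1 then Qf a b x y else 0) +
      ∑ y, (if c y = 2 then Qf a b x y else 0) = 0 := by
    rw [← Finset.sum_add_distrib, ← Finset.sum_add_distrib]
    refine Eq.trans ?_ (hQ.deg x)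
    refine Finset.sum_congr rfl fun y _ => ?_
    have h4 : ∀ t : ZMod 3, t = 0 ∨ t = 1 ∨ t = 2 := by decide
    have h01 : ¬ (0 : ZMod 3) = 1 := by decide
    have h02 : ¬ (0 : ZMod 3) = 2 := by decide
    have h10 : ¬ (1 : ZMod 3) = 0 := by decide
    have h12 : ¬ (1 : ZMod 3) = 2 := by decide
    have h20 : ¬ (2 : ZMod 3) = 0 := by decide
    have h21 : ¬ (2 : ZMod 3) = 1 := by decide
    rcases h4 (c y) with h | h | h
    · rw [h, if_pos rfl, if_neg h01, if_neg h02, add_zero, add_zero]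
    · rw [h, if_neg h10, if_pos rfl, if_neg h12, zero_add, add_zero]
    · rw [h, if_neg h20, if_neg h21, if_pos rfl, zero_add, zero_add]
  have hcase : (z1 x = 0 ∧ z2 x = 1 ∧ ∑ y, Qf a b x y * z1 y = 0) ∨
      (z1 x = 1 ∧ z2 x = 0 ∧ ∑ y, Qf a b x y * z2 y = 0) ∨
      (z1 x = 1 ∧ z2 x = 1 ∧ ∑ y, Qf a b x y * z1 y = ∑ y, Qf a b x y * z2 y) := by
    rw [hq1, hq2]
    have h4 : ∀ t : ZMod 3, t = 0 ∨ t = 1 ∨ t = 2 := by decide
    have h01 : ¬ (0 : ZMod 3) = 1 := by decide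
    have h10 : ¬ (1 : ZMod 3) = 0 := by decide
    have h20 : ¬ (2 : ZMod 3) = 0 := by decide
    have h21 : ¬ (2 : ZMod 3) = 1 := by decide
    rcases h4 (c x) with h | h | h
    · refine Or.inl ⟨?_, ?_, ?_⟩
      · rw [hz1]; exact if_pos h
      · rw [hz2]; exact if_neg (fun h' => h01 (h.symm.trans h'))
      · rw [h] at hDx; exact hDx
    · refine Or.inr (Or.inl ⟨?_, ?_, ?_⟩)
      · rw [hz1]; exact if_neg (fun h' => h10 (h.symm.trans h'))
      · rw [hz2]; exact if_pos h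
      · rw [h] at hDx; exact hDx
    · refine Or.inr (Or.inr ⟨?_, ?_, ?_⟩)
      · rw [hz1]; exact if_neg (fun h' => h20 (h.symm.trans h'))
      · rw [hz2]; exact if_neg (fun h' => h21 (h.symm.trans h'))
      · rw [h] at hDx
        rw [hDx, add_zero] at h3
        exact add_right_cancel (h3.trans (Asm_two _).symm)
  have hfin := Asm_dec
    ((∑ y, if a y ≤ a x then z1 y else 0) + ∑ y, z1 y * ((a y : ZMod 2) + (b y : ZMod 2)))
    ((∑ y, if a y ≤ a x then z2 y else 0) + ∑ y, z2 y * ((a y : ZMod 2) + (b y : ZMod 2)))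
    (∑ y, if b y ≤ b x then z1 y else 0) (∑ y, if b y ≤ b x then z2 y else 0)
    (z1 x) (z2 x) (∑ y, Qf a b x y * z1 y) (∑ y, Qf a b x y * z2 y) ?_ ?_ hcase
  · have e1 : (∑ w, if b w ≤ b z then z1 w else 0) =
        (∑ w, if b w ≤ b x then z1 w else 0) + z1 x := by
      rw [hB1, add_assoc, Asm_two, add_zero]
    have e2 : (∑ w, if b w ≤ b z then z2 w else 0) =
        (∑ w, if b w ≤ b x then z2 w else 0) + z2 x := by
      rw [hB2, add_assoc, Asm_two, add_zero]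
    have e3 : (∑ w, if a w ≤ a y then z1 w else 0) +
          ∑ w, z1 w * ((a w : ZMod 2) + (b w : ZMod 2)) =
        (∑ w, if a w ≤ a x then z1 w else 0) +
          ∑ w, z1 w * ((a w : ZMod 2) + (b w : ZMod 2)) + z1 x := by
      rw [hA1]
      linear_combination (-1 : ZMod 2) * Asm_two (z1 x)
    have e4 : (∑ w, if a w ≤ a y then z2 w else 0) +
          ∑ w, z2 w * ((a w : ZMod 2) + (b w : ZMod 2)) =
        (∑ w, if a w ≤ a x then z2 w else 0) +
          ∑ w, z2 w * ((a w : ZMod 2) + (b w : ZMod 2)) + z2 x := by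
      rw [hA2]
      linear_combination (-1 : ZMod 2) * Asm_two (z2 x)
    rw [e1, e2, e3, e4]
    exact hfin
  · linear_combination hX1 + Asm_two (∑ y, z1 y * ((a y : ZMod 2) + (b y : ZMod 2)))
  · linear_combination hX2 + Asm_two (∑ y, z2 y * ((a y : ZMod 2) + (b y : ZMod 2)))

end Pool.Agent.ECH
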