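import Mathlib

/-!
# ECH: even circuit decompositions of 4-regular graphs with a Hamilton decomposition (MP_854819)

Theorem: let `G` be the union of two edge-disjoint Hamilton cycles `A`, `B` on `n` vertices, where
`n` is not `1` modulo four. Then `G` has an even circuit decomposition.
-/

set_option autoImplicit false

namespace Pool.Agent.ECH

/-- The graph `Q` of two cyclic orders, given by the positions `a x`, `b x` of the vertices. For an odd
number of vertices: `Q x y = 1` iff the distances from `x` to `y` in the two orders are congruent
modulo two. -/
def Qf {V : Type} [DecidableEq V] (a b : V → ℕ) (x y : V) : ZMod 2 :=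
  if x = y then 0 else
    1 + (if a y < a x then 1 else 0) + (if b y < b x then 1 else 0) +
      ((a x : ZMod 2) + (b x : ZMod 2)) + ((a y : ZMod 2) + (b y : ZMod 2))

/-- `a x` is the position of `x` in a cyclic order of the finite type `V`, and `α` is the step to the
next element. -/
structure Cyc {V : Type} [Fintype V] (α : Equiv.Perm V) (a : V → ℕ) : Prop where
  inj : Function.Injective a
  lt : ∀ x, a x < Fintype.card V
  step : ∀ x, a (α x) = (a x + 1) % Fintype.card V

/-- the degree of `x` inside its own class of the partition `c`, modulo two -/
def Dg {V : Type} [Fintype V] (Q : V → V → ZMod 2) (c : V → ZMod 3) (x : V) : ZMod 2 :=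
  ∑ y, if c y = c x then Q x y else 0

/-- `Q` is the adjacency matrix modulo two of a graph with even degrees -/
structure EvG {V : Type} [Fintype V] (Q : V → V → ZMod 2) : Prop where
  diag : ∀ x, Q x x = 0
  symm : ∀ x y, Q x y = Q y x
  deg : ∀ x, ∑ y, Q x y = 0

end Pool.Agent.ECH
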