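import Pool.Agent.ECH.St

/-!
# ECH: [Fin] the theorem, assembly
-/

set_option autoImplicit false

namespace Pool.Agent.ECH

open SimpleGraph Pool.Agent.CEC

private lemma Fin_cyc {V : Type} [Fintype V] {α : Equiv.Perm V} {a : V → ℕ} (h : Cyc α a)
    (hn : 3 ≤ Fintype.card V) (x : V) : α x ≠ x ∧ α (α x) ≠ x := by
  have h0 := h.lt x
  have h1 := h.step x
  have h2 := h.step (α x)
  have h3 := h.lt (α x)
  constructor
  · intro hx
    rw [hx] at h1
    rcases Nat.lt_or_ge (a x + 1) (Fintype.card V) with hl | hl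
    · rw [Nat.mod_eq_of_lt hl] at h1
      omega
    · have he : a x + 1 = Fintype.card V := by omega
      rw [he, Nat.mod_self] at h1
      omega
  · intro hx
    rw [hx] at h2
    rcases Nat.lt_or_ge (a x + 1) (Fintype.card V) with hl | hl
    · rw [Nat.mod_eq_of_lt hl] at h1
      rcases Nat.lt_or_ge (a (α x) + 1) (Fintype.card V) with hl2 | hl2
      · rw [Nat.mod_eq_of_lt hl2] at h2
        omega
      · have he : a (α x) + 1 = Fintype.card V := by omega
        rw [he, Nat.mod_self] at h2
        omega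
    · have he : a x + 1 = Fintype.card V := by omega
      rw [he, Nat.mod_self] at h1
      rcases Nat.lt_or_ge (a (α x) + 1) (Fintype.card V) with hl2 | hl2
      · rw [Nat.mod_eq_of_lt hl2] at h2
        omega
      · omega

theorem thm_Fin (hHam : St_Ham) (hTwo : St_Two) (hQe : St_Qe) (hPar : St_Par) (hAsm : St_Asm) :
    St_Fin := by
  intro V _ _ G v w A B hA hB hdis hcov h4
  obtain ⟨α, a, hαa, hAe⟩ := hHam V G v A hA
  obtain ⟨β, b, hβb, hBe⟩ := hHam V G w B hB
  have hn : 3 ≤ Fintype.card V := by
    have h1 := hA.isCycle.three_le_length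
    have h2 := hA.length_eq
    omega
  have hreg : Reg4 α β := by
    refine ⟨fun x => (Fin_cyc hαa hn x).1, fun x => (Fin_cyc hβb hn x).1,
      fun x => (Fin_cyc hαa hn x).2, fun x => (Fin_cyc hβb hn x).2, ?_, ?_, ?_⟩
    · intro x hx
      exact hdis s(x, α x) ((hAe x (α x)).2 (Or.inl rfl)) ((hBe x (α x)).2 (Or.inl hx))
    · intro x hx
      exact hdis s(x, β x) ((hAe x (β x)).2 (Or.inr hx.symm)) ((hBe x (β x)).2 (Or.inl rfl))
    · intro x hx
      exact hdis s(x, α x) ((hAe x (α x)).2 (Or.inl rfl)) ((hBe x (α x)).2 (Or.inr hx.symm))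
  have hG : PG α β = G := by
    ext x y
    unfold PG
    rw [SimpleGraph.fromRel_adj]
    constructor
    · rintro ⟨-, (h | h) | (h | h)⟩
      · have := (hAe x y).2 (Or.inl h)
        exact A.edges_subset_edgeSet this
      · have := (hBe x y).2 (Or.inl h)
        exact B.edges_subset_edgeSet this
      · have := (hAe x y).2 (Or.inr h)
        exact A.edges_subset_edgeSet this
      · have := (hBe x y).2 (Or.inr h)
        exact B.edges_subset_edgeSet this
    · intro h
      refine ⟨h.ne, ?_⟩
      rcases hcov s(x, y) (G.mem_edgeSet.2 h) with he | he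
      · rcases (hAe x y).1 he with h1 | h1
        · exact Or.inl (Or.inl h1)
        · exact Or.inr (Or.inl h1)
      · rcases (hBe x y).1 he with h1 | h1
        · exact Or.inl (Or.inr h1)
        · exact Or.inr (Or.inr h1)
  rw [← hG]
  rcases Nat.even_or_odd (Fintype.card V) with hev | hodd
  · exact hTwo V α β a b hreg hαa hβb hev
  · have h3 : Fintype.card V % 4 = 3 := by
      obtain ⟨k, hk⟩ := hodd
      omega
    have hEv := hQe V α β a b hαa hβb hodd
    obtain ⟨c, hc1, hc2⟩ := hPar V (Qf a b) hEv h3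
    exact hAsm V α β a b hreg hαa hβb hodd c hc1 hc2

end Pool.Agent.ECH
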