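import Pool.Agent.ECH.St

/-!
# ECH [Iv]: two involutions with the same fixed points
-/

set_option autoImplicit false

namespace Pool.Agent.ECH

private lemma Iv_conj {V : Type} (S T : Equiv.Perm V) (hS : S * S = 1) (hT : T * T = 1) (m : ℤ) :
    S * (S * T) ^ m = (S * T) ^ (-m) * S := by
  have h1 : S * (S * T) * S⁻¹ = (S * T)⁻¹ := by
    have hS' : S⁻¹ = S := by
      rw [inv_eq_iff_mul_eq_one]; exact hS
    have hT' : T⁻¹ = T := by
      rw [inv_eq_iff_mul_eq_one]; exact hT
    rw [mul_inv_rev, hS', hT', ← mul_assoc, hS, one_mul]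
  have h2 : S * (S * T) ^ m * S⁻¹ = (S * T) ^ (-m) := by
    rw [← conj_zpow, h1, inv_zpow', ]
  rw [← h2, inv_mul_cancel_right]

private lemma Iv_ne {V : Type} (S T : Equiv.Perm V) (hS : S * S = 1) (hT : T * T = 1)
    (hf : ∀ x, S x = x ↔ T x = x) (x : V) (hx : S x ≠ x) : ¬ Equiv.Perm.SameCycle (S * T) x (S x) := by
  rintro ⟨k, hk⟩
  have key : ∀ m : ℤ, S (((S * T) ^ m) x) = ((S * T) ^ (-m + k)) x := by
    intro m
    have := congrArg (fun p : Equiv.Perm V => p x) (Iv_conj S T hS hT m)
    simp only [Equiv.Perm.mul_apply] at this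
    rw [this, ← hk, ← Equiv.Perm.mul_apply, ← zpow_add]
  have fixed : ∀ y, S y = y → ∀ j : ℤ, ((S * T) ^ j) y = y := by
    intro y hy j
    have h1 : (S * T) y = y := by
      rw [Equiv.Perm.mul_apply, (hf y).1 hy, hy]
    exact Equiv.Perm.zpow_apply_eq_self_of_apply_eq_self h1 j
  have fin : ∀ m : ℤ, S (((S * T) ^ m) x) = ((S * T) ^ m) x → False := by
    intro m hm
    have h1 := fixed _ hm (-m)
    rw [← Equiv.Perm.mul_apply, ← zpow_add, neg_add_cancel, zpow_zero, Equiv.Perm.one_apply] at h1
    rw [← h1] at hm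
    exact hx hm
  rcases Int.even_or_odd' k with ⟨m, rfl | rfl⟩
  · apply fin m
    rw [key m]
    congr 2
    ring
  · apply fin m
    rw [hf]
    have h1 := key m
    have e1 : -m + (2 * m + 1) = 1 + m := by ring
    rw [e1, zpow_add, Equiv.Perm.mul_apply, zpow_one, Equiv.Perm.mul_apply] at h1
    exact (S.injective h1).symm

theorem thm_Iv : St_Iv := by
  intro V _ s t hs ht hf
  let S : Equiv.Perm V := Function.Involutive.toPerm s hs
  let T : Equiv.Perm V := Function.Involutive.toPerm t ht
  have hS : S * S = 1 := by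
    ext x; exact hs x
  have hT : T * T = 1 := by
    ext x; exact ht x
  have hf' : ∀ x, S x = x ↔ T x = x := hf
  let st : Setoid V := Equiv.Perm.SameCycle.setoid (S * T)
  let e : Quotient st → ℕ := fun z => (Finite.equivFin (Quotient st) z : ℕ)
  have he : Function.Injective e := fun a b hab =>
    (Finite.equivFin (Quotient st)).injective (Fin.ext hab)
  have hne : ∀ x, s x ≠ x → e (Quotient.mk st x) ≠ e (Quotient.mk st (s x)) := by
    intro x hx h
    exact Iv_ne S T hS hT hf' x hx (Quotient.exact (he h))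
  have h1 : ∀ x, Quotient.mk st (t x) = Quotient.mk st (s x) := by
    intro x
    apply Quotient.sound
    refine ⟨1, ?_⟩
    rw [zpow_one]
    change s (t (t x)) = s x
    rw [ht]
  have h2 : ∀ x, Quotient.mk st (s (t x)) = Quotient.mk st x := by
    intro x
    symm
    apply Quotient.sound
    refine ⟨1, ?_⟩
    rw [zpow_one]
    rfl
  refine ⟨fun x => decide (e (Quotient.mk st x) < e (Quotient.mk st (s x))), fun x hx => ?_⟩
  have h3 := hne x hx
  constructor
  · simp only [hs, ne_eq, decide_eq_decide]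
    omega
  · simp only [h1, h2, ne_eq, decide_eq_decide]
    omega

end Pool.Agent.ECH
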