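import Pool.Agent.ECH.St
import Pool.Agent.CEC.Lab
import Pool.Agent.CEC.Cls

/-!
# ECH, module Mx: mixed labels
-/

set_option autoImplicit false

namespace Pool.Agent.ECH

open SimpleGraph Pool.Agent.CEC

open Classical in
/-- the partner of `x` along the edges with label `i` -/
private noncomputable def Mx_s {V I : Type} (α : Equiv.Perm V) (f : V → I) (i : I) (x : V) : V :=
  if f x = i then α x else if f (α.symm x) = i then α.symm x else x

private theorem Mx_pos {V I : Type} (α : Equiv.Perm V) (f : V → I) (i : I) (x : V)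
    (h : f x = i) : Mx_s α f i x = α x := if_pos h

private theorem Mx_inv {V I : Type} (α : Equiv.Perm V) (f : V → I)
    (hf : ∀ x, f x ≠ f (α.symm x)) (i : I) (x : V) :
    Mx_s α f i (Mx_s α f i x) = x := by
  unfold Mx_s
  by_cases h1 : f x = i
  · have h2 : f (α x) ≠ i := by
      have h3 := hf (α x)
      rw [Equiv.symm_apply_apply, h1] at h3
      exact h3
    simp [h1, h2]
  · by_cases h2 : f (α.symm x) = i
    · simp [h1, h2]
    · simp [h1, h2]

private theorem Mx_fix {V I : Type} (α : Equiv.Perm V) (f : V → I) (ha : ∀ x, α x ≠ x)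
    (i : I) (x : V) : Mx_s α f i x = x ↔ (f x ≠ i ∧ f (α.symm x) ≠ i) := by
  have ha' : α.symm x ≠ x := by
    intro h
    apply ha (α.symm x)
    rw [Equiv.apply_symm_apply, h]
  unfold Mx_s
  by_cases h1 : f x = i
  · simp [h1, ha x]
  · by_cases h2 : f (α.symm x) = i
    · simp [h1, h2, ha']
    · simp [h1, h2]

theorem thm_Mx (h : St_Iv) : St_Mx := by
  intro V _ α β hR I fa fb hL
  have hL' := fun x => hL x (α.symm x) (β.symm x) (Equiv.apply_symm_apply _ _)
    (Equiv.apply_symm_apply _ _)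
  have hfa : ∀ x, fa x ≠ fa (α.symm x) := by
    intro x hx
    rcases hL' x with ⟨h1, h2, h3⟩ | ⟨h1, h2, h3⟩
    · exact h3 (by rw [h1, h2, hx])
    · exact h3 (by rw [h1, h2, hx])
  have hfb : ∀ x, fb x ≠ fb (β.symm x) := by
    intro x
    rcases hL' x with ⟨_, _, h3⟩ | ⟨_, _, h3⟩
    · exact h3
    · exact h3
  have hst : ∀ i x, Mx_s α fa i x = x ↔ Mx_s β fb i x = x := by
    intro i x
    rw [Mx_fix α fa hR.a1, Mx_fix β fb hR.b1]
    rcases hL' x with ⟨h1, h2, _⟩ | ⟨h1, h2, _⟩
    · rw [h1, h2]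
    · rw [h1, h2, and_comm]
  choose q hq using fun i => h V (Mx_s α fa i) (Mx_s β fb i) (Mx_inv α fa hfa i)
    (Mx_inv β fb hfb i) (hst i)
  refine thm_Lab thm_Cls V α β hR I fa fb q ⟨?_, ?_, ?_⟩
  · intro x
    have h1 := Mx_pos α fa (fa x) x rfl
    have h2 := (hq (fa x) x (by rw [h1]; exact hR.a1 x)).1
    rwa [h1] at h2
  · intro x
    have h1 := Mx_pos β fb (fb x) x rfl
    have h3 : Mx_s β fb (fb x) x ≠ x := by rw [h1]; exact hR.b1 x
    have h2 := (hq (fb x) x (fun h4 => h3 ((hst (fb x) x).mp h4))).2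
    rwa [h1] at h2
  · intro x y z hy hz
    exact Or.inr (hL x y z hy hz)

end Pool.Agent.ECH
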