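import Pool.Agent.ECH.St

/-! # ECH (helper6): a partition into three odd classes (MP_854819_co) -/

set_option autoImplicit false

namespace Pool.Agent.ECH

open Finset

private theorem Par_swap (a : ZMod 3) : (1 - a = 0 ↔ a = 1) ∧ (1 - a = 1 ↔ a = 0) ∧
    (1 - a = a → a = 2) ∧ 1 - (1 - a) = a := by
  revert a
  decide

private theorem Par_inj (a b : ZMod 3) : 1 - a = 1 - b ↔ a = b := by
  revert a b
  decide

private theorem Par_fin (n : ℕ) :
    ∑ j : Fin n, ∑ i : Fin n, (if i < j then (1 : ZMod 2) else 0) =
      ((n * (n - 1) / 2 : ℕ) : ZMod 2) := by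
  have h1 : ∀ j : Fin n, ∑ i : Fin n, (if i < j then (1 : ZMod 2) else 0) = ((j : ℕ) : ZMod 2) := by
    intro j
    rw [Finset.sum_boole]
    have : (univ.filter fun i : Fin n => i < j) = Finset.Iio j := by
      ext i
      simp
    rw [this, Fin.card_Iio]
  rw [Finset.sum_congr rfl fun j _ => h1 j, ← Finset.sum_range_id,
    ← Fin.sum_univ_eq_sum_range (fun i => i) n]
  push_cast
  rfl

/-- the number of the pairs in order with colours `0`, `1` -/
private def Par_g {V : Type} [Fintype V] (r : V → ℕ) (c : V → ZMod 3) : ZMod 2 :=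
  ∑ u, ∑ w, if r u < r w ∧ c u = 0 ∧ c w = 1 then 1 else 0

private theorem Par_add {V : Type} [Fintype V] (r : V → ℕ) (hr : Function.Injective r)
    (c : V → ZMod 3) : Par_g r c + Par_g r (fun x => 1 - c x) =
      ((univ.filter fun x => c x = 0).card : ZMod 2) * ((univ.filter fun x => c x = 1).card) := by
  unfold Par_g
  have h1 : ∑ u, ∑ w, (if r u < r w ∧ 1 - c u = 0 ∧ 1 - c w = 1 then (1 : ZMod 2) else 0) =
      ∑ u, ∑ w, (if r w < r u ∧ c u = 0 ∧ c w = 1 then (1 : ZMod 2) else 0) := by
    rw [Finset.sum_comm]
    refine Finset.sum_congr rfl fun u _ => Finset.sum_congr rfl fun w _ => ?_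
    refine if_congr ?_ rfl rfl
    rw [(Par_swap (c u)).2.1, (Par_swap (c w)).1]
    tauto
  rw [h1, ← Finset.sum_add_distrib, ← Finset.sum_boole, ← Finset.sum_boole, Finset.sum_mul_sum]
  refine Finset.sum_congr rfl fun u _ => ?_
  rw [← Finset.sum_add_distrib]
  refine Finset.sum_congr rfl fun w _ => ?_
  by_cases hu : c u = 0
  · by_cases hw : c w = 1
    · have hne : r u ≠ r w := by
        intro h
        have := hr h
        subst this
        rw [hu] at hw
        exact absurd hw (by decide)
      rcases lt_or_gt_of_ne hne with h | h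
      · rw [if_pos ⟨h, hu, hw⟩, if_neg (fun h' => absurd h'.1 (by omega)), if_pos hu, if_pos hw]
        decide
      · rw [if_neg (fun h' => absurd h'.1 (by omega)), if_pos ⟨h, hu, hw⟩, if_pos hu, if_pos hw]
        decide
    · rw [if_neg (fun h' => hw h'.2.2), if_neg (fun h' => hw h'.2.2), if_neg hw, mul_zero, add_zero]
  · rw [if_neg (fun h' => hu h'.2.1), if_neg (fun h' => hu h'.2.1), if_neg hu, zero_mul, add_zero]

theorem thm_Par (h : St_Rou) : St_Par := by
  classical
  intro V _ _ Q hQ hn
  by_contra hcon
  push Not at hcon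
  set CC : Finset (V → ZMod 3) := univ.filter fun c => ∀ x, Dg Q c x = 0 with hCC
  set e := Fintype.equivFin V with he
  set r : V → ℕ := fun x => (e x : ℕ) with hr
  have hri : Function.Injective r := by
    intro x y hxy
    exact e.injective (Fin.ext hxy)
  -- the sum is one
  have hone : ∑ c ∈ CC, Par_g r c = 1 := by
    unfold Par_g
    rw [Finset.sum_comm]
    have h1 : ∀ u : V, ∑ c ∈ CC, ∑ w, (if r u < r w ∧ c u = 0 ∧ c w = 1 then (1 : ZMod 2) else 0) =
        ∑ w, (if r u < r w then (1 : ZMod 2) else 0) := by
      intro u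
      rw [Finset.sum_comm]
      refine Finset.sum_congr rfl fun w _ => ?_
      by_cases huw : r u < r w
      · rw [if_pos huw, Finset.sum_boole]
        have hne : u ≠ w := by
          rintro rfl
          exact lt_irrefl _ huw
        have h2 := h V Q hQ u w hne
        have h3 : (CC.filter fun c => r u < r w ∧ c u = 0 ∧ c w = 1) =
            univ.filter fun c : V → ZMod 3 => c u = 0 ∧ c w = 1 ∧ ∀ x, Dg Q c x = 0 := by
          ext c
          rw [hCC, Finset.mem_filter, Finset.mem_filter, Finset.mem_filter]
          constructor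
          · rintro ⟨⟨a1, a2⟩, a3, a4, a5⟩
            exact ⟨a1, a4, a5, a2⟩
          · rintro ⟨a1, a2, a3, a4⟩
            exact ⟨⟨a1, a4⟩, huw, a2, a3⟩
        rw [h3]
        exact ZMod.natCast_eq_one_iff_odd.2 h2
      · rw [if_neg huw]
        exact Finset.sum_eq_zero fun c _ => if_neg fun h' => huw h'.1
    rw [Finset.sum_congr rfl fun u _ => h1 u]
    have h2 : ∑ u, ∑ w, (if r u < r w then (1 : ZMod 2) else 0) =
        ∑ j : Fin (Fintype.card V), ∑ i : Fin (Fintype.card V),
          (if i < j then (1 : ZMod 2) else 0) := by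
      rw [Finset.sum_comm]
      rw [← e.sum_comp (fun j => ∑ i : Fin (Fintype.card V), (if i < j then (1 : ZMod 2) else 0))]
      refine Finset.sum_congr rfl fun w _ => ?_
      rw [← e.sum_comp (fun i => (if i < e w then (1 : ZMod 2) else 0))]
      rfl
    rw [h2, Par_fin]
    obtain ⟨m, hm⟩ : ∃ m, Fintype.card V = 4 * m + 3 := ⟨Fintype.card V / 4, by omega⟩
    rw [hm]
    have h3 : (4 * m + 3) * (4 * m + 3 - 1) / 2 = 2 * (4 * m ^ 2 + 5 * m + 1) + 1 := by
      have : (4 * m + 3) * (4 * m + 3 - 1) = (2 * (4 * m ^ 2 + 5 * m + 1) + 1) * 2 := by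
        have e1 : 4 * m + 3 - 1 = 4 * m + 2 := by omega
        rw [e1]
        ring
      rw [this]
      omega
    rw [h3]
    exact ZMod.natCast_eq_one_iff_odd.2 ⟨_, rfl⟩
  have hzero : ∑ c ∈ CC, Par_g r c = 0 := by
    refine Finset.sum_involution (fun c _ x => 1 - c x) ?_ ?_ ?_ ?_
    · intro c hc
      rw [Par_add r hri c]
      have hc' := (Finset.mem_filter.1 hc).2
      by_contra hne
      have o0 : Odd (univ.filter fun x => c x = 0).card := by
        by_contra hev
        rw [Nat.not_odd_iff_even, ← ZMod.natCast_eq_zero_iff_even] at hev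
        rw [hev, zero_mul] at hne
        exact hne rfl
      have o1 : Odd (univ.filter fun x => c x = 1).card := by
        by_contra hev
        rw [Nat.not_odd_iff_even, ← ZMod.natCast_eq_zero_iff_even] at hev
        rw [hev, mul_zero] at hne
        exact hne rfl
      have hsum : Fintype.card V = ∑ i : ZMod 3, (univ.filter fun x => c x = i).card := by
        rw [← Finset.card_univ]
        exact Finset.card_eq_sum_card_fiberwise fun x _ => Finset.mem_coe.2 (Finset.mem_univ _)
      have h3 : ∑ i : ZMod 3, (univ.filter fun x => c x = i).card =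
          (univ.filter fun x => c x = 0).card + (univ.filter fun x => c x = 1).card +
            (univ.filter fun x => c x = 2).card := by
        exact Fin.sum_univ_three (fun i : ZMod 3 => (univ.filter fun x => c x = i).card)
      have o2 : Odd (univ.filter fun x => c x = 2).card := by
        obtain ⟨p, hp⟩ := o0
        obtain ⟨q, hq⟩ := o1
        rw [h3] at hsum
        refine ⟨Fintype.card V / 2 - p - q - 1, ?_⟩
        omega
      obtain ⟨x, hx⟩ := hcon c fun i => by
        have hi : i = 0 ∨ i = 1 ∨ i = 2 := by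
          revert i
          decide
        rcases hi with rfl | rfl | rfl
        · exact o0
        · exact o1
        · exact o2
      exact hx (hc' x)
    · intro c hc hne hfix
      apply hne
      unfold Par_g
      refine Finset.sum_eq_zero fun u _ => Finset.sum_eq_zero fun w _ => if_neg ?_
      rintro ⟨-, h2, -⟩
      have h3 := (Par_swap (c u)).2.2.1 (congrFun hfix u)
      rw [h2] at h3
      exact absurd h3 (by decide)
    · intro c hc
      rw [hCC, Finset.mem_filter] at hc ⊢
      refine ⟨Finset.mem_univ _, fun x => ?_⟩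
      rw [← hc.2 x]
      unfold Dg
      refine Finset.sum_congr rfl fun y _ => ?_
      exact if_congr (Par_inj (c y) (c x)) rfl rfl
    · intro c hc
      funext x
      exact (Par_swap (c x)).2.2.2
  rw [hone] at hzero
  exact absurd hzero (by decide)

end Pool.Agent.ECH
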