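import Pool.Agent.ECH.St

/-!
# ECH, module Qe (helper81): the graph of two cyclic orders has even degrees
-/

set_option autoImplicit false

namespace Pool.Agent.ECH

private theorem Qe_image {V : Type} [Fintype V] (a : V → ℕ) (ha : Function.Injective a)
    (hlt : ∀ x, a x < Fintype.card V) : Finset.univ.image a = Finset.range (Fintype.card V) := by
  classical
  refine Finset.eq_of_subset_of_card_le (fun k hk => ?_) ?_
  · obtain ⟨x, -, rfl⟩ := Finset.mem_image.1 hk
    exact Finset.mem_range.2 (hlt x)
  · rw [Finset.card_image_of_injective _ ha, Finset.card_range, Finset.card_univ]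

private theorem Qe_sum {V : Type} [Fintype V] (a : V → ℕ) (ha : Function.Injective a)
    (hlt : ∀ x, a x < Fintype.card V) (f : ℕ → ZMod 2) :
    ∑ y, f (a y) = ∑ k ∈ Finset.range (Fintype.card V), f k := by
  rw [← Qe_image a ha hlt, Finset.sum_image fun x _ y _ h => ha h]

private theorem Qe_less {V : Type} [Fintype V] (a : V → ℕ) (ha : Function.Injective a)
    (hlt : ∀ x, a x < Fintype.card V) (x : V) :
    ∑ y, (if a y < a x then (1 : ZMod 2) else 0) = (a x : ZMod 2) := by
  rw [Qe_sum a ha hlt (fun k => if k < a x then (1 : ZMod 2) else 0), ← Finset.sum_filter]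
  have h1 : (Finset.range (Fintype.card V)).filter (fun k => k < a x) = Finset.range (a x) := by
    ext k
    have := hlt x
    simp only [Finset.mem_filter, Finset.mem_range]
    omega
  rw [h1]
  simp

private theorem Qe_two (p : ZMod 2) : p + p = 0 := CharTwo.add_self_eq_zero p

theorem thm_Qe : St_Qe := by
  intro V _ _ α β a b ha hb hn
  refine ⟨fun x => by simp [Qf], fun x y => ?_, fun x => ?_⟩
  · by_cases hxy : x = y
    · rw [hxy]
    · have hyx : ¬ y = x := fun h => hxy h.symm
      have h1 : a x ≠ a y := fun h => hxy (ha.inj h)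
      have h2 : b x ≠ b y := fun h => hxy (hb.inj h)
      unfold Qf
      rw [if_neg hxy, if_neg hyx]
      generalize (a x : ZMod 2) = p
      generalize (b x : ZMod 2) = q
      generalize (a y : ZMod 2) = r
      generalize (b y : ZMod 2) = s
      rcases lt_or_gt_of_ne h1 with h3 | h3 <;> rcases lt_or_gt_of_ne h2 with h4 | h4
      · rw [if_neg (by omega), if_neg (by omega), if_pos h3, if_pos h4]
        revert p q r s
        decide
      · rw [if_neg (by omega), if_pos h4, if_pos h3, if_neg (by omega)]
        revert p q r s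
        decide
      · rw [if_pos h3, if_neg (by omega), if_neg (by omega), if_pos h4]
        revert p q r s
        decide
      · rw [if_pos h3, if_pos h4, if_neg (by omega), if_neg (by omega)]
        revert p q r s
        decide
  · have h1 : ∀ y, Qf a b x y = (1 + (if a y < a x then 1 else 0) + (if b y < b x then 1 else 0) +
        ((a x : ZMod 2) + (b x : ZMod 2)) + ((a y : ZMod 2) + (b y : ZMod 2)))
        + (if x = y then 1 else 0) := by
      intro y
      unfold Qf
      by_cases hxy : x = y
      · subst hxy
        rw [if_pos rfl, if_pos rfl, if_neg (lt_irrefl _), if_neg (lt_irrefl _)]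
        generalize (a x : ZMod 2) = p
        generalize (b x : ZMod 2) = q
        revert p q
        decide
      · rw [if_neg hxy, if_neg hxy, add_zero]
    have hc : ((Fintype.card V : ℕ) : ZMod 2) = 1 := by
      obtain ⟨k, hk⟩ := hn
      rw [hk]
      push_cast
      rw [show (2 : ZMod 2) = 0 from rfl]
      ring
    have h2 : ∑ _y : V, (1 : ZMod 2) = 1 := by
      rw [Finset.sum_const, Finset.card_univ, nsmul_eq_mul, hc, mul_one]
    have h3 : ∑ _y : V, ((a x : ZMod 2) + (b x : ZMod 2)) = (a x : ZMod 2) + (b x : ZMod 2) := by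
      rw [Finset.sum_const, Finset.card_univ, nsmul_eq_mul, hc, one_mul]
    have h4 : ∑ y, ((a y : ZMod 2) + (b y : ZMod 2)) = 0 := by
      rw [Finset.sum_add_distrib, Qe_sum a ha.inj ha.lt (fun k => (k : ZMod 2)),
        Qe_sum b hb.inj hb.lt (fun k => (k : ZMod 2)), Qe_two]
    rw [Finset.sum_congr rfl fun y _ => h1 y, Finset.sum_add_distrib, Finset.sum_add_distrib,
      Finset.sum_add_distrib, Finset.sum_add_distrib, Finset.sum_add_distrib, h2, h3, h4,
      Qe_less a ha.inj ha.lt x, Qe_less b hb.inj hb.lt x, Finset.sum_ite_eq]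
    rw [if_pos (Finset.mem_univ x)]
    generalize (a x : ZMod 2) = p
    generalize (b x : ZMod 2) = q
    revert p q
    decide

end Pool.Agent.ECH
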