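import Pool.Agent.ECH.St

/-!
# ECH, module Rou (helper22): the number of the partitions with `c u = 0`, `c w = 1` is odd

MP_854819_co.
-/

set_option autoImplicit false

namespace Pool.Agent.ECH

open Finset

private theorem Rou_add_self (a : ZMod 2) : a + a = 0 := by
  revert a
  decide

private theorem Rou_swap : ∀ a b : ZMod 3, (1 - b = 1 - a ↔ b = a) ∧
    (1 - a = a → 1 - b = b → b = a) ∧ 1 - (1 - a) = a := by
  decide

private theorem Rou_third : ∀ a b : ZMod 3, (b = -a - b ↔ b = a) ∧ (-a - b = a → b = a) ∧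
    -(-a - b) - b = a := by
  decide

/-- the sum of a symmetric function with zero diagonal -/
private theorem Rou_sym {V : Type} [Fintype V] (f : V → V → ZMod 2) (h1 : ∀ x y, f x y = f y x)
    (h2 : ∀ x, f x x = 0) : ∑ x, ∑ y, f x y = 0 := by
  rw [← Finset.sum_product']
  refine Finset.sum_involution (fun p _ => (p.2, p.1)) ?_ ?_ ?_ ?_
  · rintro ⟨x, y⟩ -
    show f x y + f y x = 0
    rw [h1 y x]
    exact Rou_add_self _
  · rintro ⟨x, y⟩ - hne heq
    apply hne
    have h3 : y = x := congrArg Prod.fst heq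
    subst h3
    exact h2 _
  · intro p _
    exact Finset.mem_product.2 ⟨Finset.mem_univ _, Finset.mem_univ _⟩
  · intro p _
    rfl

section

variable {V : Type} [Fintype V] [DecidableEq V] (Q : V → V → ZMod 2) (u w : V)

/-- the terms of the factors -/
private def Rou_g (c : V → ZMod 3) (x y : V) : ZMod 2 :=
  if y = x then 1 else if x = u ∨ x = w ∨ c y = c x then 0 else Q x y

/-- the colourings with `c u = 0`, `c w = 1` -/
private def Rou_C : Finset (V → ZMod 3) :=
  Finset.univ.filter fun c => c u = 0 ∧ c w = 1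

private theorem Rou_card (huw : u ≠ w) : ((Rou_C u w).card : ZMod 2) = 1 := by
  have h : Rou_C u w = Fintype.piFinset
      (fun x => if x = u then {0} else if x = w then {1} else Finset.univ) := by
    ext c
    rw [Rou_C, Finset.mem_filter, Fintype.mem_piFinset]
    constructor
    · rintro ⟨-, h1, h2⟩ x
      by_cases hx : x = u
      · rw [if_pos hx, hx, h1]
        exact Finset.mem_singleton_self _
      · rw [if_neg hx]
        by_cases hx2 : x = w
        · rw [if_pos hx2, hx2, h2]
          exact Finset.mem_singleton_self _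
        · rw [if_neg hx2]
          exact Finset.mem_univ _
    · intro h
      have h1 := h u
      have h2 := h w
      rw [if_pos rfl, Finset.mem_singleton] at h1
      rw [if_neg huw.symm, if_pos rfl, Finset.mem_singleton] at h2
      exact ⟨Finset.mem_univ _, h1, h2⟩
  rw [h, Fintype.card_piFinset, Nat.cast_prod]
  refine Finset.prod_eq_one fun x _ => ?_
  by_cases hx : x = u
  · rw [if_pos hx, Finset.card_singleton, Nat.cast_one]
  · rw [if_neg hx]
    by_cases hx2 : x = w
    · rw [if_pos hx2, Finset.card_singleton, Nat.cast_one]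
    · rw [if_neg hx2, Finset.card_univ, ZMod.card]
      decide

variable {Q}

private theorem Rou_dg (hQ : EvG Q) (c : V → ZMod 3) (x : V) :
    (∑ y, if c y = c x then 0 else Q x y) = Dg Q c x := by
  have h1 : (∑ y, if c y = c x then Q x y else 0) + (∑ y, if c y = c x then 0 else Q x y) = 0 := by
    rw [← Finset.sum_add_distrib]
    refine Eq.trans (Finset.sum_congr rfl fun y _ => ?_) (hQ.deg x)
    by_cases h : c y = c x
    · rw [if_pos h, if_pos h, add_zero]
    · rw [if_neg h, if_neg h, zero_add]
  unfold Dg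
  have h2 := eq_neg_of_add_eq_zero_right h1
  rw [h2, ZMod.neg_eq_self_mod_two]

/-- the factors -/
private theorem Rou_factor (hQ : EvG Q) (c : V → ZMod 3) (x : V) :
    ∑ y, Rou_g Q u w c x y = if x = u ∨ x = w then 1 else 1 + Dg Q c x := by
  have hone : ∑ y : V, (if y = x then (1 : ZMod 2) else 0) = 1 := by
    rw [Finset.sum_ite_eq' Finset.univ x, if_pos (Finset.mem_univ x)]
  by_cases hx : x = u ∨ x = w
  · rw [if_pos hx, ← hone]
    refine Finset.sum_congr rfl fun y _ => ?_
    unfold Rou_g
    by_cases hy : y = x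
    · rw [if_pos hy, if_pos hy]
    · rw [if_neg hy, if_neg hy, if_pos]
      rcases hx with h | h
      · exact Or.inl h
      · exact Or.inr (Or.inl h)
  · rw [if_neg hx, ← Rou_dg hQ c x, ← hone, ← Finset.sum_add_distrib]
    refine Finset.sum_congr rfl fun y _ => ?_
    rw [not_or] at hx
    unfold Rou_g
    by_cases hy : y = x
    · rw [if_pos hy, if_pos hy, hy, if_pos rfl, add_zero]
    · rw [if_neg hy, if_neg hy, zero_add]
      by_cases hc : c y = c x
      · rw [if_pos hc, if_pos (Or.inr (Or.inr hc))]
      · rw [if_neg hc, if_neg]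
        rintro (h | h | h)
        · exact hx.1 h
        · exact hx.2 h
        · exact hc h

/-- the two other conditions are automatic -/
private theorem Rou_auto (hQ : EvG Q) (c : V → ZMod 3) (v : V)
    (h : ∀ x, c x = c v → x ≠ v → Dg Q c x = 0) : Dg Q c v = 0 := by
  have h1 : (∑ x, ∑ y, if c x = c v ∧ c y = c v then Q x y else 0) = 0 := by
    refine Rou_sym (fun x y => if c x = c v ∧ c y = c v then Q x y else 0) ?_ ?_
    · intro x y
      show (if c x = c v ∧ c y = c v then Q x y else 0) =
        (if c y = c v ∧ c x = c v then Q y x else 0)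
      rw [hQ.symm x y]
      exact if_congr and_comm rfl rfl
    · intro x
      show (if c x = c v ∧ c x = c v then Q x x else 0) = 0
      rw [hQ.diag, ite_self]
  have h2 : ∀ x, (∑ y, if c x = c v ∧ c y = c v then Q x y else 0) =
      if x = v then Dg Q c v else 0 := by
    intro x
    by_cases hx : c x = c v
    · have h3 : (∑ y, if c x = c v ∧ c y = c v then Q x y else 0) = Dg Q c x := by
        unfold Dg
        refine Finset.sum_congr rfl fun y _ => ?_
        rw [hx]
        exact if_congr (and_iff_right rfl) rfl rfl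
      rw [h3]
      by_cases hxv : x = v
      · rw [if_pos hxv, hxv]
      · rw [if_neg hxv]
        exact h x hx hxv
    · have hxv : x ≠ v := fun h => hx (by rw [h])
      rw [if_neg hxv]
      exact Finset.sum_eq_zero fun y _ => if_neg fun h => hx h.1
  rw [Finset.sum_congr rfl fun x _ => h2 x, Finset.sum_ite_eq' Finset.univ v,
    if_pos (Finset.mem_univ v)] at h1
  exact h1

private theorem Rou_prod (hQ : EvG Q) (c : V → ZMod 3) (hc : c ∈ Rou_C u w) :
    (∏ x, ∑ y, Rou_g Q u w c x y) = if (∀ x, Dg Q c x = 0) then 1 else 0 := by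
  rw [Rou_C, Finset.mem_filter] at hc
  obtain ⟨-, hcu, hcw⟩ := hc
  rw [Finset.prod_congr rfl fun x _ => Rou_factor u w hQ c x]
  by_cases h : ∀ x, Dg Q c x = 0
  · rw [if_pos h]
    refine Finset.prod_eq_one fun x _ => ?_
    rw [h x, add_zero, ite_self]
  · rw [if_neg h]
    have h1 : ∃ x, x ≠ u ∧ x ≠ w ∧ Dg Q c x ≠ 0 := by
      by_contra hcon
      push Not at hcon
      apply h
      have hu : Dg Q c u = 0 := Rou_auto hQ c u fun x hx hxu => hcon x hxu (by
        rintro rfl
        rw [hcu, hcw] at hx
        exact absurd hx (by decide))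
      have hw : Dg Q c w = 0 := Rou_auto hQ c w fun x hx hxw => hcon x (by
        rintro rfl
        rw [hcu, hcw] at hx
        exact absurd hx (by decide)) hxw
      intro x
      by_cases hxu : x = u
      · rw [hxu, hu]
      · by_cases hxw : x = w
        · rw [hxw, hw]
        · exact hcon x hxu hxw
    obtain ⟨x, hxu, hxw, hx⟩ := h1
    refine Finset.prod_eq_zero (Finset.mem_univ x) ?_
    rw [if_neg (by rw [not_or]; exact ⟨hxu, hxw⟩)]
    revert hx
    generalize Dg Q c x = d
    revert d
    decide

/-- the term of the identity -/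
private theorem Rou_id (huw : u ≠ w) :
    ∑ c ∈ Rou_C u w, ∏ x, Rou_g Q u w c x x = 1 := by
  rw [← Rou_card u w huw, Finset.card_eq_sum_ones, Nat.cast_sum]
  refine Finset.sum_congr rfl fun c _ => ?_
  rw [Nat.cast_one]
  exact Finset.prod_eq_one fun x _ => if_pos rfl

/-- the other terms -/
private theorem Rou_zero (ψ : V → V) (hψ : ∃ x, ψ x ≠ x) :
    ∑ c ∈ Rou_C u w, ∏ x, Rou_g Q u w c x (ψ x) = 0 := by
  by_cases hu : ψ u = u
  swap
  · refine Finset.sum_eq_zero fun c _ => Finset.prod_eq_zero (Finset.mem_univ u) ?_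
    unfold Rou_g
    rw [if_neg hu, if_pos (Or.inl rfl)]
  by_cases hw : ψ w = w
  swap
  · refine Finset.sum_eq_zero fun c _ => Finset.prod_eq_zero (Finset.mem_univ w) ?_
    unfold Rou_g
    rw [if_neg hw, if_pos (Or.inr (Or.inl rfl))]
  have hfac : ∀ (c c' : V → ZMod 3) (y : V), (ψ y ≠ y → (c' (ψ y) = c' y ↔ c (ψ y) = c y)) →
      Rou_g Q u w c' y (ψ y) = Rou_g Q u w c y (ψ y) := by
    intro c c' y h
    unfold Rou_g
    by_cases hy : ψ y = y
    · rw [if_pos hy, if_pos hy]
    · rw [if_neg hy, if_neg hy]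
      exact if_congr (or_congr Iff.rfl (or_congr Iff.rfl (h hy))) rfl rfl
  have hne : ∀ (c : V → ZMod 3) (y : V), ψ y ≠ y → ∏ x, Rou_g Q u w c x (ψ x) ≠ 0 →
      c (ψ y) ≠ c y := by
    intro c y hy h h2
    apply h
    refine Finset.prod_eq_zero (Finset.mem_univ y) ?_
    unfold Rou_g
    rw [if_neg hy, if_pos (Or.inr (Or.inr h2))]
  by_cases hcase : ∃ x, ψ x ≠ x ∧ ∀ y, ψ y ≠ y → ψ y ≠ x
  · obtain ⟨x, hx, hxy⟩ := hcase
    have hxu : x ≠ u := by
      rintro rfl
      exact hx hu
    have hxw : x ≠ w := by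
      rintro rfl
      exact hx hw
    refine Finset.sum_involution
      (fun c _ => Function.update c x (-c x - c (ψ x))) ?_ ?_ ?_ ?_
    · intro c _
      have h1 : ∏ y, Rou_g Q u w (Function.update c x (-c x - c (ψ x))) y (ψ y) =
          ∏ y, Rou_g Q u w c y (ψ y) := by
        refine Finset.prod_congr rfl fun y _ => hfac c _ y fun hy => ?_
        by_cases hyx : y = x
        · rw [hyx, Function.update_of_ne hx, Function.update_self]
          exact (Rou_third (c x) (c (ψ x))).1
        · rw [Function.update_of_ne (hxy y hy), Function.update_of_ne hyx]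
      show ∏ y, Rou_g Q u w c y (ψ y) +
        ∏ y, Rou_g Q u w (Function.update c x (-c x - c (ψ x))) y (ψ y) = 0
      rw [h1]
      exact Rou_add_self _
    · intro c _ h heq
      have h1 := congrFun heq x
      rw [Function.update_self] at h1
      exact hne c x hx h ((Rou_third (c x) (c (ψ x))).2.1 h1)
    · intro c hc
      rw [Rou_C, Finset.mem_filter] at hc ⊢
      rw [Function.update_of_ne hxu.symm, Function.update_of_ne hxw.symm]
      exact ⟨Finset.mem_univ _, hc.2⟩
    · intro c _
      show Function.update (Function.update c x (-c x - c (ψ x))) x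
        (-(Function.update c x (-c x - c (ψ x)) x) -
          Function.update c x (-c x - c (ψ x)) (ψ x)) = c
      rw [Function.update_self, Function.update_of_ne hx, Function.update_idem,
        (Rou_third (c x) (c (ψ x))).2.2, Function.update_eq_self]
  · push Not at hcase
    obtain ⟨x0, hx0⟩ := hψ
    have hX : (Finset.univ.filter fun x => ψ x ≠ x) =
        (Finset.univ.filter fun x => ψ x ≠ x).image ψ := by
      refine Finset.eq_of_subset_of_card_le ?_ Finset.card_image_le
      intro x hx
      rw [Finset.mem_filter] at hx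
      obtain ⟨y, hy, hyx⟩ := hcase x hx.2
      exact Finset.mem_image.2 ⟨y, Finset.mem_filter.2 ⟨Finset.mem_univ _, hy⟩, hyx⟩
    have hX2 : ∀ y, ψ y ≠ y → ψ (ψ y) ≠ ψ y := by
      intro y hy
      have h1 : ψ y ∈ (Finset.univ.filter fun x => ψ x ≠ x).image ψ :=
        Finset.mem_image_of_mem ψ (Finset.mem_filter.2 ⟨Finset.mem_univ _, hy⟩)
      rw [← hX, Finset.mem_filter] at h1
      exact h1.2
    refine Finset.sum_involution
      (fun c _ => fun x => if ψ x ≠ x then 1 - c x else c x) ?_ ?_ ?_ ?_
    · intro c _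
      have h1 : ∏ y, Rou_g Q u w (fun x => if ψ x ≠ x then 1 - c x else c x) y (ψ y) =
          ∏ y, Rou_g Q u w c y (ψ y) := by
        refine Finset.prod_congr rfl fun y _ => hfac c _ y fun hy => ?_
        show ((if ψ (ψ y) ≠ ψ y then 1 - c (ψ y) else c (ψ y)) =
          (if ψ y ≠ y then 1 - c y else c y)) ↔ c (ψ y) = c y
        rw [if_pos hy, if_pos (hX2 y hy)]
        exact (Rou_swap (c y) (c (ψ y))).1
      show ∏ y, Rou_g Q u w c y (ψ y) +
        ∏ y, Rou_g Q u w (fun x => if ψ x ≠ x then 1 - c x else c x) y (ψ y) = 0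
      rw [h1]
      exact Rou_add_self _
    · intro c _ h heq
      have h1 := congrFun heq x0
      have h2 := congrFun heq (ψ x0)
      change (if ψ x0 ≠ x0 then 1 - c x0 else c x0) = c x0 at h1
      change (if ψ (ψ x0) ≠ ψ x0 then 1 - c (ψ x0) else c (ψ x0)) = c (ψ x0) at h2
      rw [if_pos hx0] at h1
      rw [if_pos (hX2 x0 hx0)] at h2
      exact hne c x0 hx0 h ((Rou_swap (c x0) (c (ψ x0))).2.1 h1 h2)
    · intro c hc
      rw [Rou_C, Finset.mem_filter] at hc ⊢
      refine ⟨Finset.mem_univ _, ?_, ?_⟩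
      · show (if ψ u ≠ u then 1 - c u else c u) = 0
        rw [if_neg (not_not.2 hu)]
        exact hc.2.1
      · show (if ψ w ≠ w then 1 - c w else c w) = 1
        rw [if_neg (not_not.2 hw)]
        exact hc.2.2
    · intro c _
      funext x
      show (if ψ x ≠ x then 1 - (if ψ x ≠ x then 1 - c x else c x) else
        (if ψ x ≠ x then 1 - c x else c x)) = c x
      by_cases hx : ψ x ≠ x
      · rw [if_pos hx, if_pos hx]
        exact (Rou_swap (c x) (c x)).2.2
      · rw [if_neg hx, if_neg hx]

end

/-- [Rou] -/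
theorem thm_Rou : St_Rou := by
  intro V _ _ Q hQ u w huw
  rw [← ZMod.natCast_eq_one_iff_odd]
  have h1 : (Finset.univ.filter fun c : V → ZMod 3 => c u = 0 ∧ c w = 1 ∧ ∀ x, Dg Q c x = 0) =
      (Rou_C u w).filter fun c => ∀ x, Dg Q c x = 0 := by
    ext c
    rw [Rou_C, Finset.mem_filter, Finset.mem_filter, Finset.mem_filter]
    tauto
  rw [h1, ← Finset.sum_boole, ← Finset.sum_congr rfl fun c hc => Rou_prod u w hQ c hc,
    Finset.sum_congr rfl fun c _ => Fintype.prod_sum (fun x y => Rou_g Q u w c x y),
    Finset.sum_comm, Finset.sum_eq_single (id : V → V)]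
  · exact Rou_id u w huw
  · intro ψ _ hψ
    refine Rou_zero u w ψ ?_
    by_contra hcon
    push Not at hcon
    exact hψ (funext hcon)
  · intro h
    exact absurd (Finset.mem_univ _) h

end Pool.Agent.ECH
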