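import Pool.Agent.ECH.St

/-!
# ECH Sm: sums over initial segments
-/

set_option autoImplicit false

namespace Pool.Agent.ECH

private theorem Sm_part1 {V : Type} [Fintype V] [DecidableEq V] (z : V → ZMod 2)
    (hz : ∑ y, z y = 0) (α : Equiv.Perm V) (a : V → ℕ) (h : Cyc α a) (x : V) :
    (∑ y, if a y ≤ a (α x) then z y else 0) = (∑ y, if a y ≤ a x then z y else 0) + z (α x) := by
  have hlt := h.lt x
  have hst := h.step x
  have hsing : ∑ y, (if y = α x then z y else 0) = z (α x) := by
    rw [Finset.sum_ite_eq' Finset.univ (α x) z]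
    simp
  rcases Nat.lt_or_ge (a x + 1) (Fintype.card V) with hc | hc
  · rw [Nat.mod_eq_of_lt hc] at hst
    rw [← hsing, ← Finset.sum_add_distrib]
    refine Finset.sum_congr rfl fun y _ => ?_
    by_cases hy : y = α x
    · subst hy
      have h1 : ¬ (a (α x) ≤ a x) := by omega
      simp [h1]
    · have hne : a y ≠ a (α x) := fun e => hy (h.inj e)
      have h2 : (a y ≤ a (α x)) ↔ (a y ≤ a x) := by omega
      simp [hy, h2]
  · have he : a x + 1 = Fintype.card V := by omega
    rw [he, Nat.mod_self] at hst
    have h3 : (∑ y, if a y ≤ a x then z y else 0) = 0 := by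
      rw [← hz]
      refine Finset.sum_congr rfl fun y _ => ?_
      have := h.lt y
      rw [if_pos (by omega)]
    rw [h3, zero_add, ← hsing]
    refine Finset.sum_congr rfl fun y _ => ?_
    by_cases hy : y = α x
    · subst hy
      simp
    · have hne : a y ≠ a (α x) := fun e => hy (h.inj e)
      have h4 : ¬ (a y ≤ a (α x)) := by omega
      simp [hy, h4]

private theorem Sm_part2 {V : Type} [Fintype V] [DecidableEq V] (z : V → ZMod 2)
    (hz : ∑ y, z y = 0) (a b : V → ℕ) (ha : Function.Injective a) (hb : Function.Injective b)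
    (x : V) :
    (∑ y, if a y ≤ a x then z y else 0) + (∑ y, if b y ≤ b x then z y else 0) =
      z x + (∑ y, Qf a b x y * z y) + ∑ y, z y * ((a y : ZMod 2) + (b y : ZMod 2)) := by
  have h2 : (2 : ZMod 2) = 0 := by decide
  have hsing : ∑ y, (if y = x then z y else 0) = z x := by
    rw [Finset.sum_ite_eq' Finset.univ x z]
    simp
  have hzero : ∑ y, z y * (1 + ((a x : ZMod 2) + (b x : ZMod 2))) = 0 := by
    rw [← Finset.sum_mul, hz, zero_mul]
  have key : ∀ y, (if a y ≤ a x then z y else 0) + (if b y ≤ b x then z y else 0) =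
      (if y = x then z y else 0) + Qf a b x y * z y + z y * ((a y : ZMod 2) + (b y : ZMod 2)) +
        z y * (1 + ((a x : ZMod 2) + (b x : ZMod 2))) := by
    intro y
    by_cases hy : y = x
    · subst hy
      have hQ : Qf a b y y = 0 := by
        unfold Qf
        rw [if_pos rfl]
      rw [hQ, if_pos le_rfl, if_pos le_rfl, if_pos rfl]
      linear_combination (-(z y) * ((a y : ZMod 2) + (b y : ZMod 2))) * h2
    · have hay : a y ≠ a x := fun e => hy (ha e)
      have hby : b y ≠ b x := fun e => hy (hb e)
      have hQ : Qf a b x y = 1 + (if a y < a x then 1 else 0) + (if b y < b x then 1 else 0) +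
          ((a x : ZMod 2) + (b x : ZMod 2)) + ((a y : ZMod 2) + (b y : ZMod 2)) := by
        unfold Qf
        rw [if_neg (fun e => hy e.symm)]
      have e1 : (if a y ≤ a x then z y else 0) = (if a y < a x then (1 : ZMod 2) else 0) * z y := by
        rcases lt_or_gt_of_ne hay with h | h
        · rw [if_pos h.le, if_pos h, one_mul]
        · rw [if_neg (not_le.mpr h), if_neg (not_lt.mpr h.le), zero_mul]
      have e2 : (if b y ≤ b x then z y else 0) = (if b y < b x then (1 : ZMod 2) else 0) * z y := by
        rcases lt_or_gt_of_ne hby with h | h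
        · rw [if_pos h.le, if_pos h, one_mul]
        · rw [if_neg (not_le.mpr h), if_neg (not_lt.mpr h.le), zero_mul]
      rw [hQ, e1, e2, if_neg hy]
      linear_combination (-(z y) * (1 + ((a x : ZMod 2) + (b x : ZMod 2))
        + ((a y : ZMod 2) + (b y : ZMod 2)))) * h2
  rw [← Finset.sum_add_distrib, Finset.sum_congr rfl (fun y _ => key y), Finset.sum_add_distrib,
    Finset.sum_add_distrib, Finset.sum_add_distrib, hsing, hzero, add_zero]

theorem thm_Sm : St_Sm := by
  intro V _ _ z hz
  exact ⟨fun α a h x => Sm_part1 z hz α a h x,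
    fun α β a b ha hb x => Sm_part2 z hz a b ha.inj hb.inj x⟩

end Pool.Agent.ECH
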