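import Pool.Agent.ECH.St
import Pool.Agent.CEC.Lab
import Pool.Agent.CEC.Cls

/-!
# ECH: module Two (an even number of vertices)
-/

set_option autoImplicit false

namespace Pool.Agent.ECH

open SimpleGraph Pool.Agent.CEC

private lemma Two_par {V : Type} [Fintype V] (α : Equiv.Perm V) (a : V → ℕ) (h : Cyc α a)
    (he : Even (Fintype.card V)) (x : V) :
    decide (a (α x) % 2 = 0) ≠ decide (a x % 2 = 0) := by
  have h1 : a (α x) % 2 = (a x + 1) % 2 := by
    rw [h.step x, Nat.mod_mod_of_dvd _ he.two_dvd]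
  rw [h1]
  intro h2
  have h3 : ((a x + 1) % 2 = 0) ↔ (a x % 2 = 0) := decide_eq_decide.mp h2
  omega

theorem thm_Two : St_Two := by
  intro V _ α β a b hR hA hB he
  refine thm_Lab thm_Cls V α β hR Bool (fun _ => true) (fun _ => false)
    (fun i x => if i then decide (a x % 2 = 0) else decide (b x % 2 = 0)) ⟨?_, ?_, ?_⟩
  · intro x
    exact Two_par α a hA he x
  · intro x
    exact Two_par β b hB he x
  · intro x y z _ _
    exact Or.inl ⟨rfl, rfl, Bool.false_ne_true⟩

end Pool.Agent.ECH
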