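import Pool.Agent.ECH.Iv
import Pool.Agent.ECH.Mx
import Pool.Agent.ECH.Rou
import Pool.Agent.ECH.Par
import Pool.Agent.ECH.Qe
import Pool.Agent.ECH.Sm
import Pool.Agent.ECH.Asm
import Pool.Agent.ECH.Two
import Pool.Agent.ECH.Ham
import Pool.Agent.ECH.Fin

/-!
# ECH: assembly
-/

set_option autoImplicit false

namespace Pool.Agent.ECH

theorem st_fin : St_Fin :=
  thm_Fin thm_Ham thm_Two thm_Qe (thm_Par thm_Rou) (thm_Asm (thm_Mx thm_Iv) thm_Qe thm_Sm)

end Pool.Agent.ECH
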