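import Pool.Agent.ECH.Defs
import Pool.Agent.CEC.Defs

/-!
# ECH: the statements

Every `def St_X : Prop` is a module `Pool/Agent/ECH/X.lean` with `theorem thm_X : St_X` or
`theorem thm_X (h : St_Y) .. : St_X` (cite the other statements as hypotheses, do not import the other
modules; `Pool.Agent.CEC.Lab`, `Pool.Agent.CEC.Cls` are on main and may be imported where it is said).
-/

set_option autoImplicit false

namespace Pool.Agent.ECH

open SimpleGraph Pool.Agent.CEC

/-- [Iv] two involutions with the same fixed points.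
Proof. Let `h = s t` (a permutation of `V`, `h x = s (t x)`), `[x]` the orbit of `x` under
`Subgroup.zpowers h`. `s h s = t s = h⁻¹`, so `s (h ^ m x) = h ^ (-m) (s x)` for every integer `m`.
If `s x ≠ x` then `[s x] ≠ [x]`: suppose `s x = h ^ k x`. If `k = 2 m` then
`s (h ^ m x) = h ^ (-m) (h ^ (2 m) x) = h ^ m x`, so `y = h ^ m x` is fixed by `s`, hence by `t`, hence by
`h` and its powers; so `x = y` is fixed by `s`: no. If `k = 2 m + 1` then
`s (h ^ m x) = h ^ (m + 1) x = s (t (h ^ m x))`, so `h ^ m x` is fixed by `t`, hence by `s`, hence `x` is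
fixed: no. Moreover `h (t x) = s x`, so `[t x] = [s x]`, and `h x = s (t x)`, so `[s (t x)] = [x]`.
The set of orbits is finite; let `e` be an injective map from it to `ℕ` and
`q x := decide (e [x] < e [s x])`. If `s x ≠ x` then `q (s x) = decide (e [s x] < e [x]) = !q x`, and
`q (t x) = decide (e [t x] < e [s (t x)]) = decide (e [s x] < e [x]) = !q x`. -/
def St_Iv : Prop := ∀ (V : Type) [Finite V] (s t : V → V), (∀ x, s (s x) = x) → (∀ x, t (t x) = x) →
  (∀ x, s x = x ↔ t x = x) →
  ∃ q : V → Bool, ∀ x, s x ≠ x → q (s x) ≠ q x ∧ q (t x) ≠ q x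

/-- [Mx] mixed labels: if at every vertex `x` an edge of the first kind and an edge of the second kind
have one label and the two other edges have another label, then the classes are unions of circuits
whose edges are alternately of the first and of the second kind, so they are even.
Proof. Import `Pool.Agent.CEC.Lab`, `Pool.Agent.CEC.Cls` and use `thm_Lab thm_Cls` (statement `St_Lab`,
the hypothesis is the structure `CEC.Lab`; `deg` is the second or third alternative). `pa`, `pb`: for a
label `i` let `s x := α x` if `fa x = i`, `α⁻¹ x` if `fa (α⁻¹ x) = i`, `x` otherwise; `t x` in the same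
way with `β`, `fb`. (For `y = α⁻¹ x`, `z = β⁻¹ x` the hypothesis gives `fa x ≠ fa y`, `fb x ≠ fb z` and
`{fa x, fa y} = {fb x, fb z}`.) They are involutions (if `fa x = i` then `fa (α⁻¹ (α x)) = i` and
`fa (α x) ≠ i`), and `s x = x` iff `i` is none of `fa x, fa y` iff `i` is none of `fb x, fb z` iff
`t x = x` (`α x ≠ x`, `β x ≠ x` by `Reg4`). [Iv] gives `q`, and `p i := q`. -/
def St_Mx : Prop := ∀ (V : Type) [Finite V] (α β : Equiv.Perm V), Reg4 α β →
  ∀ (I : Type) (fa fb : V → I), (∀ x y z, α y = x → β z = x →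
    (fb x = fa x ∧ fb z = fa y ∧ fb x ≠ fb z) ∨ (fb x = fa y ∧ fb z = fa x ∧ fb x ≠ fb z)) →
  HasECD (PG α β)

/-- [Rou] the number of the partitions `c` with even degrees inside the classes, `c u = 0`, `c w = 1`,
is odd (no condition on the number of vertices).
Proof. (1) Let `E c x := ∑ y, if c y = c x then 0 else Q x y`. As `∑ y, Q x y = 0` we have
`Dg Q c x = E c x`. Suppose `c u = 0`, `c w = 1` and `E c x = 0` for all `x ≠ u, w`. The sum of
`Dg Q c x` over all `x` with `c x = i` is a sum of `Q x y` over pairs of `x, y` in the class `i`, and it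
is `0` as `Q` is symmetric with diagonal `0`. For `i = 0` all terms except `x = u` vanish, so
`Dg Q c u = 0`; for `i = 1`: `Dg Q c w = 0`. So the number in question is the number of the
`c ∈ C0 := {c : c u = 0, c w = 1}` with `E c x = 0` for all `x ≠ u, w`, and modulo two it is
`∑ c ∈ C0, ∏ x, (if x = u ∨ x = w then 1 else 1 + E c x)`.
(2) Let `g c x y := 1` if `y = x`, otherwise `0` if `x = u` or `x = w` or `c y = c x`, otherwise
`Q x y`. Then `∑ y, g c x y` is the factor in (1), and `Finset.prod_univ_sum` gives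
`∑ c ∈ C0, ∑ ψ : V → V, ∏ x, g c x (ψ x)`. Exchange the sums. For `ψ = id` the inner sum is the number of
elements of `C0`, which is odd (`C0` is the `Fintype.piFinset` of sets of sizes `1` and `3`).
(3) Let `ψ ≠ id`, `X = {x : ψ x ≠ x}`, nonempty. We show `∑ c ∈ C0, ∏ x, g c x (ψ x) = 0`. If `u ∈ X` or
`w ∈ X`: all products are `0`. Otherwise:
(a) if some `x ∈ X` is not in `ψ(X)`: `Finset.sum_involution` with `c ↦ update c x (-c x - c (ψ x))`
(the third colour). It maps `C0` to itself (`x ≠ u, w`) and is an involution as `ψ x ≠ x`. If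
`c x = c (ψ x)` the product for `c` is `0` and `c` is fixed. Otherwise `c` is not fixed, and the two
products are equal: the factor at `x` is `Q x (ψ x)` for both; the factor at `y ≠ x` is `1` if
`ψ y = y`, and if `ψ y ≠ y` then `y ∈ X`, so `ψ y ≠ x`, and `c y`, `c (ψ y)` have not changed.
(b) otherwise `ψ` maps `X` onto `X` (`X ⊆ ψ(X)` and the cardinals give `ψ(X) = X`). Use the involution
`c ↦ (fun x => if x ∈ X then 1 - c x else c x)` (exchange `0` and `1` on `X`). For `y ∈ X` the factor
depends on whether `c y = c (ψ y)`, where `y, ψ y ∈ X`; so the products are equal. If the product is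
not `0` then for `y ∈ X` we have `c y ≠ c (ψ y)`, so one of them is not `2` and `c` is not fixed. -/
def St_Rou : Prop := ∀ (V : Type) [Fintype V] [DecidableEq V] (Q : V → V → ZMod 2), EvG Q →
  ∀ u w : V, u ≠ w →
  Odd (Finset.univ.filter fun c : V → ZMod 3 => c u = 0 ∧ c w = 1 ∧ ∀ x, Dg Q c x = 0).card

/-- [Par] a partition into three odd classes with even degrees inside the classes.
Proof. Suppose there is none. Let `CC` be the finite set of all `c` with `Dg Q c x = 0` for all `x`,
`e : V ≃ Fin n` (`Fintype.equivFin`), `g c` the number of the pairs `(u, w)` with `e u < e w`,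
`c u = 0`, `c w = 1`. By double counting and [Rou], `∑ c ∈ CC, g c` is modulo two the number of all
pairs with `e u < e w`, that is `n (n - 1) / 2`, which is odd as `n` is `3` modulo four. On the other hand
`Finset.sum_involution` in `ZMod 2` with `c ↦ (fun x => 1 - c x)` (exchange of `0` and `1`, `2` fixed;
`Dg` does not change) gives `0`: `g c + g (1 - c)` is the number of the pairs `e u < e w` with
`{c u, c w} = {0, 1}`, that is `N0 * N1`, `Ni` the number of the `x` with `c x = i`
(the number of the ordered pairs `(u, w)` with `c u = 0`, `c w = 1`, sorted). It is even: `N0 + N1 + N2 = n`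
is odd and not all three are odd, so exactly one is odd, and one of `N0`, `N1` is even. If
`1 - c = c` then `c x = 2` for all `x` and `g c = 0`. Contradiction. -/
def St_Par : Prop := ∀ (V : Type) [Fintype V] [DecidableEq V] (Q : V → V → ZMod 2), EvG Q →
  Fintype.card V % 4 = 3 →
  ∃ c : V → ZMod 3, (∀ i : ZMod 3, Odd (Finset.univ.filter fun x => c x = i).card) ∧
    ∀ x, Dg Q c x = 0

/-- [Qe] the graph `Q` of two cyclic orders has even degrees.
Proof. Let `s x := a x + b x` in `ZMod 2`, `n := card V` odd. `a`, `b` are bijections of `V` with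
`{0, .., n - 1}`. `symm`: for `x ≠ y` exactly one of `a y < a x`, `a x < a y` holds, and the same for
`b`. `deg`: `∑ y, Q x y = ∑ y ≠ x, (1 + [a y < a x] + [b y < b x] + s x + s y)
= (n - 1) + a x + b x + (n - 1) s x + ∑ y ≠ x, s y = s x + (∑ y, s y + s x) = ∑ y, s y`, and
`∑ y, s y = ∑ k < n, k + ∑ k < n, k = 0`; the number of the `y` with `a y < a x` is `a x`. -/
def St_Qe : Prop := ∀ (V : Type) [Fintype V] [DecidableEq V] (α β : Equiv.Perm V) (a b : V → ℕ),
  Cyc α a → Cyc β b → Odd (Fintype.card V) → EvG (Qf a b)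

/-- [Sm] the sums of an even set over initial segments.
Proof. Let `n := card V` (odd), `s x := a x + b x` in `ZMod 2`. First part: if `a (α x) = a x + 1` then
the sums differ by the term `z (α x)` (`a y ≤ a x + 1` iff `a y ≤ a x` or `a y = a x + 1 = a (α x)`,
`inj`). Otherwise `a x = n - 1`, `a (α x) = 0` (`step`, `lt`): the sum at `x` is `∑ y, z y = 0`, the
sum at `α x` is `z (α x)`. Second part: the left side is
`∑ y, z y ([a y ≤ a x] + [b y ≤ b x])`; the term of `y = x` is `0`; for `y ≠ x` it is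
`z y ([a y < a x] + [b y < b x]) = z y (Q x y + 1 + s x + s y)` (`Q = Qf a b`). For `y = x` one has
`z x (Q x x + 1 + s x + s x) = z x`. So the left side is
`z x + ∑ y, z y (Q x y + 1 + s x + s y) = z x + ∑ y, Q x y z y + (1 + s x) ∑ y, z y + ∑ y, z y s y`. -/
def St_Sm : Prop := ∀ (V : Type) [Fintype V] [DecidableEq V] (z : V → ZMod 2), ∑ y, z y = 0 →
  (∀ (α : Equiv.Perm V) (a : V → ℕ), Cyc α a → ∀ x,
    (∑ y, if a y ≤ a (α x) then z y else 0) = (∑ y, if a y ≤ a x then z y else 0) + z (α x)) ∧
  (∀ (α β : Equiv.Perm V) (a b : V → ℕ), Cyc α a → Cyc β b → ∀ x,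
    (∑ y, if a y ≤ a x then z y else 0) + (∑ y, if b y ≤ b x then z y else 0) =
      z x + (∑ y, Qf a b x y * z y) + ∑ y, z y * ((a y : ZMod 2) + (b y : ZMod 2)))

/-- [Asm] from the partition to the decomposition.
Proof. Let `Q = Qf a b` (`EvG` by [Qe]), `s x := a x + b x` in `ZMod 2`,
`z1 x := if c x = 0 then 0 else 1`, `z2 x := if c x = 1 then 0 else 1`; `∑ z1 = n - N0 = 0`,
`∑ z2 = n - N1 = 0` as `n`, `N0`, `N1` are odd (`Ni` the number of the `x` with `c x = i`).
`PA z x := ∑ y, if a y ≤ a x then z y else 0`, `PB z x` the same with `b`, `k z := ∑ y, z y * s y`.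
Labels in `ZMod 2 × ZMod 2`: `fa x := (PA z1 x + k z1, PA z2 x + k z2)`, `fb x := (PB z1 x, PB z2 x)`.
By [Sm], at `x = α y = β z`: `fa x = fa y + (z1 x, z2 x)`, `fb x = fb z + (z1 x, z2 x)`,
`fa x + fb x = (z1 x + Q z1 x, z2 x + Q z2 x)`, where `Q z x := ∑ y, Q x y * z y`.
Let `Di x` be `∑ y, if c y = i then Q x y else 0` for `i = 0, 1, 2`; `D0 x + D1 x + D2 x = 0` (`deg`),
`Q z1 x = D1 x + D2 x = D0 x`, `Q z2 x = D1 x`, and `Di x = 0` for `i = c x` (this is `Dg Q c x = 0`).
`c x = 0`: `(z1 x, z2 x) = (0, 1)`, `Q z1 x = 0`, `f := Q z2 x`; `fa x + fb x = (0, 1 + f)`.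
`c x = 1`: `(z1 x, z2 x) = (1, 0)`, `Q z2 x = 0`, `f := Q z1 x`; `fa x + fb x = (1 + f, 0)`.
`c x = 2`: `(z1 x, z2 x) = (1, 1)`, `D0 x = D1 x =: f`; `fa x + fb x = (1 + f, 1 + f)`.
In all cases `fa x + fb x` is `0` (for `f = 1`: first alternative of [Mx]) or `(z1 x, z2 x)` (for
`f = 0`: then `fb x = fa x + (z1 x, z2 x) = fa y`, `fb z = fa x`), and `(z1 x, z2 x) ≠ 0`. -/
def St_Asm : Prop := ∀ (V : Type) [Fintype V] [DecidableEq V] (α β : Equiv.Perm V) (a b : V → ℕ),
  Reg4 α β → Cyc α a → Cyc β b → Odd (Fintype.card V) →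
  ∀ c : V → ZMod 3, (∀ i : ZMod 3, Odd (Finset.univ.filter fun x => c x = i).card) →
  (∀ x, Dg (Qf a b) c x = 0) → HasECD (PG α β)

/-- [Two] an even number of vertices: the two Hamilton cycles themselves.
Proof. Import `Pool.Agent.CEC.Lab`, `Pool.Agent.CEC.Cls`, use `thm_Lab thm_Cls` (`St_Lab`) with `I = Bool`,
`fa x = true`, `fb x = false`, `p true x := decide (a x % 2 = 0)`, `p false x := decide (b x % 2 = 0)`
(`a (α x) = (a x + 1) % n` has the other parity as `n` is even); first alternative of `deg`. -/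
def St_Two : Prop := ∀ (V : Type) [Fintype V] (α β : Equiv.Perm V) (a b : V → ℕ),
  Reg4 α β → Cyc α a → Cyc β b → Even (Fintype.card V) → HasECD (PG α β)

/-- [Ham] the cyclic order of a Hamiltonian cycle.
Proof. Let `n := card V`; `A.length = n` (`IsHamiltonianCycle.length_eq`), `n ≥ 3`. The vertices
`A.getVert i`, `i < n`, are all vertices, without repetition, and `A.getVert n = A.getVert 0`. Let
`a x` be the `i < n` with `A.getVert i = x`, `α x := A.getVert (a x + 1)`. The edges of `A` are the
`s(A.getVert i, A.getVert (i + 1))`, `i < n`. -/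
def St_Ham : Prop := ∀ (V : Type) [Fintype V] [DecidableEq V] (G : SimpleGraph V) (v : V)
  (A : G.Walk v v), A.IsHamiltonianCycle → ∃ (α : Equiv.Perm V) (a : V → ℕ), Cyc α a ∧
    ∀ x y, s(x, y) ∈ A.edges ↔ (y = α x ∨ x = α y)

/-- [Fin] the theorem.
Proof. [Ham] for `A` and `B`. `PG α β = G` and `Reg4 α β`: `α x ≠ x` and `α (α x) ≠ x` because
`n ≥ 3` (`Cyc`; a Hamiltonian cycle has length `≥ 3`), the same for `β`; `α x ≠ β x`, `α (β x) ≠ x`,
`β (α x) ≠ x`: otherwise an edge is in `A` and in `B`. If `n` is even: [Two]. Otherwise `n` is `3` modulo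
four: [Qe], [Par], [Asm]. -/
def St_Fin : Prop := ∀ (V : Type) [Fintype V] [DecidableEq V] (G : SimpleGraph V) (v w : V)
  (A : G.Walk v v) (B : G.Walk w w), A.IsHamiltonianCycle → B.IsHamiltonianCycle →
  (∀ e ∈ A.edges, e ∉ B.edges) → (∀ e ∈ G.edgeSet, e ∈ A.edges ∨ e ∈ B.edges) →
  Fintype.card V % 4 ≠ 1 → HasECD G

end Pool.Agent.ECH
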